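import Mathlib

/-!
# The rainbow Ramsey theorem for pairs is not Weihrauch reducible to the thin Hindman theorem for
sums of two elements

`RRT^2_2` is not Weihrauch reducible to `thin-HT^{=2}` (Q1 of MP_527a81_lc, disproved).  Moreover:
for every backward functional `ψ`, computable or only continuous, there is an instance `c` of
`RRT^2_2`, which is even injective on the pairs of `ℕ ∖ {b}` for one point `b`, such that for EVERY
colouring `d` of the natural numbers (computed from `c` or not) some solution of `thin-HT^{=2}` for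
`d` is not sent by `ψ` to a solution for `c`.

Proof.  Every finite set `s` of numbers below `u` is the part below `u` of a solution of
`thin-HT^{=2}` for every colouring `d`: fix a free ultrafilter.  For every `x` there is at most one
colour `n` such that `d (x + y) = n` for almost all `y`, hence for all but finitely many colours
`n` neither the elements of `s` nor almost all numbers have this property, and such a colour, if it
does not occur on the sums of two elements of `s`, can be avoided by the greedy algorithm.  Now let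
`ψ` compute a solution for an injective colouring from some solution `S` for some `d`, and let `a`
and `b` be two of its elements.  They are computed from finite parts of the colouring and of `S`.
Change the colouring above this part so that the pairs `{a, y}` and `{b, y}` have the same colour
for all large `y`.  Whatever `d` is now, the finite part of `S` extends to a solution for `d`, and
from this solution `ψ` computes a set which contains `a` and `b`.
-/

set_option autoImplicit false

namespace Pool.Agent.Results.MP_527a81_lc.NotReducible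

/-! ### Functionals, problems, Weihrauch reducibility -/

/-- The word of the first `m` values of `p`. -/
def pre (p : ℕ → ℕ) (m : ℕ) : List ℕ := (List.range m).map p

/-- The functional given by `φ` sends the oracle `p` to the function `q`: for every `n`, on some
finite initial segment of the oracle the output for the argument `n` is `q n`, and on no initial
segment it is anything else. -/
def Computes (φ : List ℕ × ℕ →. ℕ) (p q : ℕ → ℕ) : Prop :=
  ∀ n, (∃ m, q n ∈ φ (pre p m, n)) ∧ ∀ m v, v ∈ φ (pre p m, n) → v = q n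

/-- The join `p ⊕ q`. -/
def join (p q : ℕ → ℕ) : ℕ → ℕ := fun n => if n % 2 = 0 then p (n / 2) else q (n / 2)

/-- A problem: its instances and the solutions of every instance, coded in Baire space. -/
structure Problem where
  /-- the instances -/
  inst : Set (ℕ → ℕ)
  /-- the solutions of an instance -/
  sol : (ℕ → ℕ) → Set (ℕ → ℕ)

/-- Weihrauch reducibility `P ≤_W Q`: there are functionals `Φ`, `Ψ`, given by partial recursive
functions `φ`, `ψ`, such that for every instance `x` of `P`, `Φ^x` is an instance of `Q`, and for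
every solution `z` of it, `Ψ^(x ⊕ z)` is a solution of `x`. -/
def WeihrauchLE (P Q : Problem) : Prop :=
  ∃ φ ψ : List ℕ × ℕ →. ℕ, Partrec φ ∧ Partrec ψ ∧
    ∀ x ∈ P.inst, ∃ y ∈ Q.inst, Computes φ x y ∧
      ∀ z ∈ Q.sol y, ∃ w ∈ P.sol x, Computes ψ (join x z) w

/-- `z` is the characteristic function of an infinite set of natural numbers. -/
def IsInfiniteSet (z : ℕ → ℕ) : Prop := (∀ n, z n < 2) ∧ {n | z n = 1}.Infinite

/-- The rainbow Ramsey theorem `RRT^2_2`.  The instances are the colourings of the two-element sets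
of natural numbers with at most two sets of each colour; the colour of `{a, b}`, `a < b`, under the
instance `c` is `c (Nat.pair a b)`, and the other values of `c` are `0`.  The solutions are the
(characteristic functions of) infinite sets such that any two different two-element subsets of them
have different colours. -/
def RRT22 : Problem where
  inst := {c | (∀ a b, b ≤ a → c (Nat.pair a b) = 0) ∧
    ∀ i, {x : ℕ × ℕ | x.1 < x.2 ∧ c (Nat.pair x.1 x.2) = i}.encard ≤ 2}
  sol c := {z | IsInfiniteSet z ∧ ∀ a b a' b', a < b → a' < b' → z a = 1 → z b = 1 → z a' = 1 →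
    z b' = 1 → c (Nat.pair a b) = c (Nat.pair a' b') → a = a' ∧ b = b'}

/-- `thin-HT^{=2}`.  The instances are all colourings `d` of the natural numbers with natural
numbers; the solutions are the infinite sets `S` such that some colour does not occur on the sums
of two different elements of `S`. -/
def thinHT2 : Problem where
  inst := Set.univ
  sol d := {z | IsInfiniteSet z ∧ ∃ n, ∀ x y, x ≠ y → z x = 1 → z y = 1 → d (x + y) ≠ n}

/-! ### Finite sets extend to solutions of the thin Hindman theorem -/

lemma exists_color (d : ℕ → ℕ) (U : Ultrafilter ℕ) (s : Finset ℕ) :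
    ∃ n, (∀ x ∈ s, ∀ y ∈ s, d (x + y) ≠ n) ∧ (∀ x ∈ s, {y | d (x + y) ≠ n} ∈ U) ∧
      {x | {y | d (x + y) ≠ n} ∈ U} ∈ U := by
  classical
  -- every point has at most one bad colour
  have hx : ∀ x, {n | {y | d (x + y) ≠ n} ∉ U}.Finite := by
    intro x
    refine Set.Subsingleton.finite ?_
    intro n hn m hm
    simp only [Set.mem_ofPred_eq] at hn hm
    rw [← Ultrafilter.compl_mem_iff_notMem] at hn hm
    obtain ⟨y, hy1, hy2⟩ := U.nonempty_of_mem (Filter.inter_mem hn hm)
    simp only [Set.mem_compl_iff, Set.mem_ofPred_eq, not_not] at hy1 hy2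
    exact hy1.symm.trans hy2
  have h1 : {n | {x | {y | d (x + y) ≠ n} ∈ U} ∉ U}.Finite := by
    refine Set.Subsingleton.finite ?_
    intro n hn m hm
    simp only [Set.mem_ofPred_eq] at hn hm
    rw [← Ultrafilter.compl_mem_iff_notMem] at hn hm
    obtain ⟨x, hx1, hx2⟩ := U.nonempty_of_mem (Filter.inter_mem hn hm)
    simp only [Set.mem_compl_iff, Set.mem_ofPred_eq] at hx1 hx2
    rw [← Ultrafilter.compl_mem_iff_notMem] at hx1 hx2
    obtain ⟨y, hy1, hy2⟩ := U.nonempty_of_mem (Filter.inter_mem hx1 hx2)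
    simp only [Set.mem_compl_iff, Set.mem_ofPred_eq, not_not] at hy1 hy2
    exact hy1.symm.trans hy2
  have h2 : (⋃ x ∈ s, {n | {y | d (x + y) ≠ n} ∉ U}).Finite :=
    Set.Finite.biUnion s.finite_toSet (fun x _ => hx x)
  have h3 : (((s ×ˢ s).image (fun p => d (p.1 + p.2)) : Finset ℕ) : Set ℕ).Finite :=
    Finset.finite_toSet _
  obtain ⟨n, hn⟩ := ((h1.union h2).union h3).exists_notMem
  simp only [Set.mem_union, not_or, Set.mem_iUnion, not_exists, Set.mem_ofPred_eq, not_not,
    Finset.mem_coe, Finset.mem_image, Finset.mem_product, Prod.exists, not_and] at hn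
  obtain ⟨⟨hn1, hn2⟩, hn3⟩ := hn
  exact ⟨n, fun x hx y hy h => hn3 x y ⟨hx, hy⟩ h, fun x hx => hn2 x hx, hn1⟩

/-- Every finite set of numbers below `u` is the part below `u` of a solution, for every
colouring. -/
lemma extend (d : ℕ → ℕ) (s : Finset ℕ) (u : ℕ) :
    ∃ T : Set ℕ, T.Infinite ∧ (∀ x, x < u → (x ∈ T ↔ x ∈ s)) ∧
      ∃ n, ∀ x y, x ≠ y → x ∈ T → y ∈ T → d (x + y) ≠ n := by
  classical
  let U : Ultrafilter ℕ := Filter.hyperfilter ℕ
  obtain ⟨n, hn1, hn2, hn3⟩ := exists_color d U s
  let Good : Finset ℕ → Prop := fun t => (∀ x ∈ t, ∀ y ∈ t, x ≠ y → d (x + y) ≠ n) ∧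
    ∀ x ∈ t, {y | d (x + y) ≠ n} ∈ U
  have hs0 : Good s := ⟨fun x hx y hy _ => hn1 x hx y hy, hn2⟩
  have step : ∀ t : Finset ℕ, Good t → ∃ y, u ≤ y ∧ (∀ x ∈ t, x < y) ∧ Good (insert y t) := by
    intro t ht
    have hA : (⋂ x ∈ t, {y | d (x + y) ≠ n}) ∈ U :=
      (Filter.biInter_finset_mem t).2 ht.2
    have hB : {y | max u (t.sup id + 1) ≤ y} ∈ U := by
      have : {y | max u (t.sup id + 1) ≤ y} ∈ (Filter.atTop : Filter ℕ) := Filter.mem_atTop _
      exact Filter.hyperfilter_le_cofinite (Nat.cofinite_eq_atTop ▸ this)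
    obtain ⟨y, ⟨hy1, hy2⟩, hy3⟩ :=
      U.nonempty_of_mem (Filter.inter_mem (Filter.inter_mem hA hn3) hB)
    simp only [Set.mem_iInter, Set.mem_ofPred_eq] at hy1 hy2 hy3
    have hlt : ∀ x ∈ t, x < y := fun x hx => by
      have h1 : x ≤ t.sup id := Finset.le_sup (f := id) hx
      have h2 := le_trans (le_max_right _ _) hy3
      omega
    refine ⟨y, le_trans (le_max_left _ _) hy3, hlt, ?_, ?_⟩
    · intro a ha b hb hab
      rw [Finset.mem_insert] at ha hb
      rcases ha with rfl | ha <;> rcases hb with rfl | hb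
      · exact absurd rfl hab
      · rw [add_comm]; exact hy1 b hb
      · exact hy1 a ha
      · exact ht.1 a ha b hb hab
    · intro a ha
      rw [Finset.mem_insert] at ha
      rcases ha with rfl | ha
      · exact hy2
      · exact ht.2 a ha
  choose! f hf1 hf2 hf3 using step
  let S : ℕ → Finset ℕ := fun k => Nat.rec s (fun _ t => insert (f t) t) k
  have hS0 : S 0 = s := rfl
  have hS1 : ∀ k, S (k + 1) = insert (f (S k)) (S k) := fun k => rfl
  have hG : ∀ k, Good (S k) := by
    intro k
    induction k with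
    | zero => exact hs0
    | succ k ih => rw [hS1]; exact hf3 _ ih
  have hmono : Monotone S := monotone_nat_of_le_succ (fun k => by
    rw [hS1]; exact Finset.subset_insert _ _)
  refine ⟨{x | ∃ k, x ∈ S k}, ?_, ?_, n, ?_⟩
  · -- infinite
    have hcard : ∀ k, k ≤ (S k).card := by
      intro k
      induction k with
      | zero => exact Nat.zero_le _
      | succ k ih =>
        rw [hS1, Finset.card_insert_of_notMem (fun h => lt_irrefl _ (hf2 _ (hG k) _ h))]
        omega
    intro hfin
    have h1 := hcard (hfin.toFinset.card + 1)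
    have h2 : (S (hfin.toFinset.card + 1)) ⊆ hfin.toFinset := by
      intro x hx
      rw [Set.Finite.mem_toFinset]
      exact ⟨hfin.toFinset.card + 1, hx⟩
    have h3 := Finset.card_le_card h2
    omega
  · intro x hx
    constructor
    · rintro ⟨k, hk⟩
      induction k with
      | zero => exact hk
      | succ k ih =>
        rw [hS1, Finset.mem_insert] at hk
        rcases hk with rfl | hk
        · have := hf1 _ (hG k)
          omega
        · exact ih hk
    · intro h
      exact ⟨0, h⟩
  · rintro x y hxy ⟨k, hk⟩ ⟨l, hl⟩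
    exact (hG (max k l)).1 x (hmono (le_max_left _ _) hk) y (hmono (le_max_right _ _) hl) hxy

/-- Every initial segment of the characteristic function of a set extends to a solution of the
thin Hindman theorem for an arbitrary colouring. -/
lemma extend_sol (d z : ℕ → ℕ) (hz : ∀ n, z n < 2) (u : ℕ) :
    ∃ z' ∈ thinHT2.sol d, ∀ n, n < u → z' n = z n := by
  classical
  obtain ⟨T, hT1, hT2, n, hn⟩ := extend d ((Finset.range u).filter (fun x => z x = 1)) u
  refine ⟨fun x => if x ∈ T then 1 else 0, ⟨⟨fun x => by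
    show (if x ∈ T then 1 else 0) < 2
    split_ifs <;> norm_num, ?_⟩, n, ?_⟩, ?_⟩
  · have : {x | (if x ∈ T then 1 else 0) = 1} = T := by
      ext x
      by_cases h : x ∈ T <;> simp [h]
    rw [this]
    exact hT1
  · intro x y hxy hx hy
    have hx' : x ∈ T := by
      by_contra h
      simp [h] at hx
    have hy' : y ∈ T := by
      by_contra h
      simp [h] at hy
    exact hn x y hxy hx' hy'
  · intro x hx
    have h1 := hT2 x hx
    rw [Finset.mem_filter, Finset.mem_range] at h1
    have h2 := hz x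
    by_cases h : z x = 1
    · have : x ∈ T := h1.2 ⟨hx, h⟩
      simp [this, h]
    · have : x ∉ T := fun hT => h (h1.1 hT).2
      simp only [this, if_false]
      omega

/-! ### The colourings -/

/-- The injective colouring. -/
def inj0 (n : ℕ) : ℕ := if (Nat.unpair n).1 < (Nat.unpair n).2 then n + 1 else 0

/-- The colouring in which `{b, y}` has the colour of `{a, y}` for all `y ≥ u`. -/
def bad (a b u : ℕ) (n : ℕ) : ℕ :=
  if (Nat.unpair n).1 < (Nat.unpair n).2 then
    (if (Nat.unpair n).1 = b ∧ u ≤ (Nat.unpair n).2 then Nat.pair a (Nat.unpair n).2 + 1 else n + 1)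
  else 0

lemma inj0_pair {a b : ℕ} (h : a < b) : inj0 (Nat.pair a b) = Nat.pair a b + 1 := by
  simp [inj0, h]

lemma inj0_inst : inj0 ∈ RRT22.inst := by
  refine ⟨fun a b h => by simp [inj0, not_lt.2 h], fun i => ?_⟩
  have : {x : ℕ × ℕ | x.1 < x.2 ∧ inj0 (Nat.pair x.1 x.2) = i}.Subsingleton := by
    rintro ⟨a, b⟩ ⟨h1, h2⟩ ⟨a', b'⟩ ⟨h3, h4⟩
    simp only at h1 h2 h3 h4
    rw [inj0_pair h1] at h2
    rw [inj0_pair h3] at h4
    have := Nat.pair_eq_pair.1 (Nat.succ_injective (h2.trans h4.symm))
    exact Prod.ext this.1 this.2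
  exact le_trans (Set.encard_le_one_iff_subsingleton.2 this) (by norm_num)

lemma bad_inst (a b u : ℕ) : bad a b u ∈ RRT22.inst := by
  classical
  refine ⟨fun x y h => by simp [bad, not_lt.2 h], fun i => ?_⟩
  have hsub : {x : ℕ × ℕ | x.1 < x.2 ∧ bad a b u (Nat.pair x.1 x.2) = i} ⊆
      (({Nat.unpair (i - 1), (b, (Nat.unpair (i - 1)).2)} : Finset (ℕ × ℕ)) : Set (ℕ × ℕ)) := by
    rintro ⟨x, y⟩ ⟨h1, h2⟩
    simp only at h1 h2
    rw [Finset.mem_coe, Finset.mem_insert, Finset.mem_singleton]
    simp only [bad, Nat.unpair_pair, h1, if_true] at h2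
    split_ifs at h2 with h
    · right
      rw [← h2, Nat.add_sub_cancel, Nat.unpair_pair, h.1]
    · left
      rw [← h2, Nat.add_sub_cancel, Nat.unpair_pair]
  refine le_trans (Set.encard_le_encard hsub) ?_
  rw [Set.encard_coe_eq_coe_finsetCard]
  exact_mod_cast Finset.card_le_two

lemma bad_inj (a b u : ℕ) : ∀ x y x' y', x < y → x' < y' → x ≠ b → y ≠ b → x' ≠ b → y' ≠ b →
    bad a b u (Nat.pair x y) = bad a b u (Nat.pair x' y') → x = x' ∧ y = y' := by
  intro x y x' y' h1 h2 h3 h4 h5 h6 h
  simp only [bad, Nat.unpair_pair, h1, h2, h3, h5, if_true, false_and, if_false] at h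
  exact Nat.pair_eq_pair.1 (Nat.succ_injective h)

lemma bad_eq_inj0 (a b u : ℕ) {n : ℕ} (hn : n < u) : bad a b u n = inj0 n := by
  have h1 : (Nat.unpair n).2 < u := lt_of_le_of_lt (Nat.unpair_right_le n) hn
  simp [bad, inj0, not_le.2 h1]

/-- The instances used: injective on the pairs of `ℕ ∖ {b}` for some `b`. -/
def AlmostInjective (c : ℕ → ℕ) : Prop :=
  ∃ b, ∀ x y x' y', x < y → x' < y' → x ≠ b → y ≠ b → x' ≠ b → y' ≠ b →
    c (Nat.pair x y) = c (Nat.pair x' y') → x = x' ∧ y = y'

lemma pre_join_eq {c c' z z' : ℕ → ℕ} {u m : ℕ} (hc : ∀ n, n < u → c n = c' n)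
    (hz : ∀ n, n < u → z n = z' n) (hm : m ≤ u) : pre (join c z) m = pre (join c' z') m := by
  unfold pre
  apply List.map_congr_left
  intro n hn
  rw [List.mem_range] at hn
  unfold join
  split_ifs
  · exact hc _ (by omega)
  · exact hz _ (by omega)

theorem main (ψ : List ℕ × ℕ →. ℕ) : ∃ c ∈ RRT22.inst, AlmostInjective c ∧
    ∀ d ∈ thinHT2.inst, ∃ z ∈ thinHT2.sol d, ¬ ∃ w ∈ RRT22.sol c, Computes ψ (join c z) w := by
  by_contra hcon
  push Not at hcon
  obtain ⟨d0, -, hd0⟩ := hcon inj0 inj0_inst ⟨0, fun x y x' y' h1 h2 _ _ _ _ h => by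
    rw [inj0_pair h1, inj0_pair h2] at h
    exact Nat.pair_eq_pair.1 (Nat.succ_injective h)⟩
  obtain ⟨z0, hz0, -⟩ := extend_sol d0 (fun _ => 0) (fun _ => by norm_num) 0
  obtain ⟨w0, hw0, hw0'⟩ := hd0 z0 hz0
  -- two elements of the output
  obtain ⟨a, ha⟩ := hw0.1.2.nonempty
  obtain ⟨b, hb, hab⟩ := hw0.1.2.exists_gt a
  have ha1 : w0 a = 1 := ha
  have hb1 : w0 b = 1 := hb
  obtain ⟨⟨ma, hma⟩, -⟩ := hw0' a
  obtain ⟨⟨mb, hmb⟩, -⟩ := hw0' b
  rw [ha1] at hma
  rw [hb1] at hmb
  set u := max ma mb with hu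
  obtain ⟨d, -, hd⟩ := hcon (bad a b u) (bad_inst a b u) ⟨b, bad_inj a b u⟩
  obtain ⟨z, hz, hzu⟩ := extend_sol d z0 hz0.1.1 u
  obtain ⟨w, hw, hw'⟩ := hd z hz
  have hc : ∀ n, n < u → inj0 n = bad a b u n := fun n hn => (bad_eq_inj0 a b u hn).symm
  have hzz : ∀ n, n < u → z0 n = z n := fun n hn => (hzu n hn).symm
  rw [pre_join_eq hc hzz (le_max_left ma mb)] at hma
  rw [pre_join_eq hc hzz (le_max_right ma mb)] at hmb
  have hwa : w a = 1 := ((hw' a).2 ma 1 hma).symm
  have hwb : w b = 1 := ((hw' b).2 mb 1 hmb).symm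
  obtain ⟨y, hy, hyu⟩ := hw.1.2.exists_gt (max u b)
  have hy1 : w y = 1 := hy
  have hbu : u < y := lt_of_le_of_lt (le_max_left _ _) hyu
  have hby : b < y := lt_of_le_of_lt (le_max_right _ _) hyu
  have hay : a < y := lt_trans hab hby
  have heq : bad a b u (Nat.pair a y) = bad a b u (Nat.pair b y) := by
    simp [bad, hay, hby, hbu.le, hab.ne]
  have := (hw.2 a y b y hay hby hwa hy1 hwb hy1 heq).1
  omega

/-- **Q1 is disproved.**  `RRT^2_2` is not Weihrauch reducible to `thin-HT^{=2}`.  Moreover, for
every functional `ψ` (not necessarily computable) there is an instance `c` of `RRT^2_2`, injective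
on the pairs of `ℕ ∖ {b}` for some `b`, such that for every instance `d` of `thin-HT^{=2}`
(computed from `c` or not) there is a solution `z` of `d` for which `ψ` does not compute a solution
of `c` from `c ⊕ z`. -/
theorem result : ¬ WeihrauchLE RRT22 thinHT2 ∧
    ∀ ψ : List ℕ × ℕ →. ℕ, ∃ c ∈ RRT22.inst,
      (∃ b, ∀ x y x' y', x < y → x' < y' → x ≠ b → y ≠ b → x' ≠ b → y' ≠ b →
        c (Nat.pair x y) = c (Nat.pair x' y') → x = x' ∧ y = y') ∧
      ∀ d ∈ thinHT2.inst, ∃ z ∈ thinHT2.sol d,
        ¬ ∃ w ∈ RRT22.sol c, Computes ψ (join c z) w := by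
  refine ⟨?_, main⟩
  rintro ⟨φ, ψ, -, -, h⟩
  obtain ⟨c, hc, -, h2⟩ := main ψ
  obtain ⟨d, hd, -, h3⟩ := h c hc
  obtain ⟨z, hz, h4⟩ := h2 d hd
  exact h4 (h3 z hz)

end Pool.Agent.Results.MP_527a81_lc.NotReducible
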